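import Mathlib
import Pool.Agent.H21.Mb2

namespace Pool.Agent.Results.MP_2b96c2_al.No

/-- The free metabelian group of rank two. -/
abbrev M2 : Type := FreeGroup (Fin 2) ⧸ derivedSeries (FreeGroup (Fin 2)) 2

theorem result : ∃ (T : Type) (_ : Group T), derivedSeries T 2 = ⊥ ∧
    (∀ t : T, t ≠ 1 → ∀ u v : T, u * t = t * u → v * t = t * v → u * v = v * u) ∧
    (∀ t : T, t ≠ 1 → ∃ f : T →* M2, Function.Surjective f ∧ f t ≠ 1) ∧
    ∃ a b : T, a ≠ 1 ∧ b ≠ 1 ∧ ∀ f : T →* M2, Function.Surjective f → f a = 1 ∨ f b = 1 := by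
  open Pool.Agent.H21.Mb in
  refine ⟨T, inferInstance, T_met, T_ct, fun t ht => ?_, _, _, S_ne true, S_ne false,
    fun f hf => by_contra fun h => no_disc f hf fun b => ?_⟩
  · by_contra! h
    exact ht (T_ext fun i => (h _ (pr_surj i)).trans (map_one _).symm)
  · rw [not_or] at h
    cases b
    · exact h.2
    · exact h.1

end Pool.Agent.Results.MP_2b96c2_al.No
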